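import Pool.Agent.H58RC.Cen

set_option autoImplicit false

/-!
# K3 surfaces: rationally equivalent rational points are dense in whole real components

`K` is a number field and `F` a form over `K` of bidegree `(4, 4)` such that the curve `F = 0` in `ℙ¹ × ℙ¹` is
smooth. For `e ≠ 0` the double cover `X_e : W² = e F` of `ℙ¹ × ℙ¹` is a K3 surface; `ι` is its involution
`W ↦ -W`. A rational point `Q` is *central* if a positive multiple of `[Q] - [ι Q]` is rationally equivalent to
zero over the algebraic closure; by theorems of Roitman and Beauville–Voisin these are the rational points in the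
canonical class `c_X`. The conjecture of Bloch and Beilinson says that all rational points are central.

The starting result `EquivalentPointsDense` shows that central points are dense in a *neighbourhood* of a central
rational point, in one affine chart. Here we show that they are dense in whole connected components of the real
surface, uniformly in all twists and all extensions of bounded degree.

A set `A` of rational points is *saturated* if it contains with a point `X` all points `Y` such that `[Y] - [ι Y]` is
an odd multiple of `[X] - [ι X]` in the Chow group over the ground field. The set of the central points is saturated,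
and so is, for each rational point `X`, the set of all those `Y` (`OddMultiples`).

**Theorem.**
1. Two central points are rationally equivalent up to torsion over the algebraic closure; the two sets just named are
   saturated.
2. For every `D` there are a finite set `T` and finitely many fibres `{z_j = c}`, `c ∈ E j`, of the two projections
   (over the algebraic closure, in each of the four charts), such that for ALL extensions `L` of `K` of degree at most
   `D`, ALL `e ∈ Lˣ`, ALL saturated sets `A` of `L`-points of `X_e` and all embeddings `τ : L → ℝ`: let `S` be the set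
   of the points of `A` with `w ≠ 0` which do not lie over `T` and which, for each `j` with `z_j ∈ E j`, move in the
   direction `j` (the fibre on which only `z_j` varies is smooth of genus one, and `[P] - [ι P]` has infinite order in
   its Jacobian). Then
   * the closure of `S` in `X_e(ℝ) × ∏ X_e(M_v)` is a union of sets `C × {y}`, where `C` is a connected component of
     `X_e(ℝ)`; here `M_v` is any finite (or empty) family of locally compact ultrametric fields with embeddings
     `L → M_v`;
   * for `P ∈ S` and a finite nonempty family of embeddings of `L` in the fields `ℚ_p`, for different primes `p`,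
     it contains `C × U`, where `C` is the component of `P` and `U` is a neighbourhood of `P` in the product of the
     `p`-adic surfaces.
   So rational points in one and the same class are dense in the whole component of a point of `S`.
3. All `L`-points over a tangent line `z_j = c`, `c ∈ L`, of the branch curve are central, and all but finitely many of
   them belong to `S` (`A` the set of the central points).
4. Let `τ : K → ℝ` and let `x` be a real point of `X_e`, `w ≠ 0`, over a tangent line `z_j = c`, `c ∈ K` (all tangent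
   lines are defined over finite extensions; a saddle point of the function `z_j` on the real surface gives such
   points). Then there are an extension `L` of `K` of degree at most two and an extension `τ' : L → ℝ` of `τ` such that
   the central `L`-points of `X_e` are dense in the whole connected component of `x` in `X_e(ℝ)`; and there is
   a central `L`-point `P` of this component with the second property of (2), for the set of the central points.

In the statements the points of the surface are replaced by their representatives, up to the action `scale` of pairs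
of nonzero scalars, so that the real surface is replaced by a cone over it. Zero-cycles are formal sums of
representatives. The cycles in `RatC` are rationally equivalent to zero on the surface: they are generated by the
differences of two representatives of a point and by the cycles in the affine charts which are called `Rat` in
`EquivalentPointsDense`: the divisors of the functions `(u + v w) / (u - v w)` on the curves in the directions of the
coordinates, the differences of two points on the image of a line `t ↦ (c(t), b(t))`, and the differences of two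
fibres of the projection `(x, w) ↦ x`.

Proof. The moves in the fibres go from `P` to the points linearly equivalent to `P + m (P - ι P)`, whose differences are
odd multiples of the one of `P`. The topological part is the one of `MP_ed3816_nt.RealComponentsAllTwists`: moves
by multiples of a large number `M` stay near `P` at all ultrametric places, they are dense on the real fibres, and they
cross the branch curve. The classes are controlled by the lemmas of the starting project `Pool.Agent.Q35.ZC`
(helper 35 and others).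

Lemmas on the real geometry and on curves of genus one: the helpers 7 (`PTB`), 8 (`PUNCT`), 31 (`G1`, `G2`, `PERT`),
62 (`CHART`, `RSL`, `CRO`, `SLD`), 64 (`CRS`), 66 (`MOVE`), 92 (`SMR`), 94 (`G3`, `G4`, `BRE`) and 58.
-/

open MvPolynomial

namespace Pool.Agent.Results.MP_9207e0_ag.CentralPointsRealComponents

section surfaces

variable {K : Type} [Field K]

/-- `F` is a form of bidegree `(4, 4)` in the pairs of variables `(0, 0), (0, 1)` and `(1, 0), (1, 1)`. -/
def IsForm (F : MvPolynomial (Fin 2 × Fin 2) K) : Prop :=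
  ∀ m ∈ F.support, ∀ j, m (j, 0) + m (j, 1) = 4

/-- The curve `F = 0` in `ℙ¹ × ℙ¹` is smooth. -/
def Smooth (F : MvPolynomial (Fin 2 × Fin 2) K) : Prop :=
  ∀ x : Fin 2 × Fin 2 → AlgebraicClosure K, (∀ j, ∃ b, x (j, b) ≠ 0) → ∃ p, aeval x (pderiv p F) ≠ 0

/-- The polynomial `F` over the extension `L` of `K`. -/
noncomputable def ext (L : Type) [Field L] [Algebra K L] (F : MvPolynomial (Fin 2 × Fin 2) K) :
    MvPolynomial (Fin 2 × Fin 2) L := map (algebraMap K L) F

/-- The polynomial of the form `G` in the affine chart of `ℙ¹ × ℙ¹` in which the coordinates `(j, ε j)` are `1`. -/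
noncomputable def chart (G : MvPolynomial (Fin 2 × Fin 2) K) (ε : Fin 2 → Fin 2) : MvPolynomial (Fin 2) K :=
  aeval (fun p : Fin 2 × Fin 2 => if p.2 = ε p.1 then 1 else X p.1) G

/-- The representatives `(X, W)` of the points of the double cover `W² = G(X)` of `ℙ¹ × ℙ¹`. -/
def cone (G : MvPolynomial (Fin 2 × Fin 2) K) : Set ((Fin 2 × Fin 2 → K) × K) :=
  {X | (∀ j, ∃ b, X.1 (j, b) ≠ 0) ∧ X.2 ^ 2 = eval X.1 G}

/-- Another representative of the same point. -/
def scale (d : Fin 2 → K) (X : (Fin 2 × Fin 2 → K) × K) : (Fin 2 × Fin 2 → K) × K :=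
  (fun p => d p.1 * X.1 p, (d 0 * d 1) ^ 2 * X.2)

/-- The representative of the point with the affine coordinates `P = (z, w)` in the chart `ε`. -/
def lift (ε : Fin 2 → Fin 2) (P : (Fin 2 → K) × K) : (Fin 2 × Fin 2 → K) × K :=
  (fun p => if p.2 = ε p.1 then 1 else P.1 p.1, P.2)

/-- The image of a point (`I = Fin 2`: affine coordinates) or of a representative of a point (`I = Fin 2 × Fin 2`)
under an embedding of fields. -/
def image {F : Type} [Field F] (φ : K →+* F) {I : Type} (P : (I → K) × K) : (I → F) × F :=
  (fun j => φ (P.1 j), φ P.2)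

end surfaces

section cycles

variable {F : Type} [Field F]

/-- The zero-cycle `[(x, w)]`. -/
noncomputable def pt (x : Fin 2 → F) (w : F) : ((Fin 2 → F) × F) →₀ ℤ := Finsupp.single (x, w) 1

/-- The zero-cycle `[(x, w)] - [(x, -w)]`. -/
noncomputable def dl (x : Fin 2 → F) (w : F) : ((Fin 2 → F) × F) →₀ ℤ := pt x w - pt x (-w)

/-- The point `x + t e_i`. -/
def shift (x : Fin 2 → F) (i : Fin 2) (t : F) : Fin 2 → F :=
  fun a => x a + t * (Pi.single i 1 : Fin 2 → F) a

/-- The restriction `q(t) = f(x + t e_i)` of a polynomial to the line through `x` in the direction of the `i`-th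
coordinate. -/
noncomputable def line (f : MvPolynomial (Fin 2) F) (x : Fin 2 → F) (i : Fin 2) : Polynomial F :=
  aeval (fun k => Polynomial.C (x k) + Polynomial.C ((Pi.single i 1 : Fin 2 → F) k) * Polynomial.X) f

/-- The function `u(t) + v(t) w` on the curve `w² = q(t)` has the zeros `T` (with multiplicities), and no zero at
infinity (as a section of the `M`-th power of the line bundle of degree two): `u` and `v` are coprime, the function
vanishes at the points `T` of the curve, its norm `u² - v² q` has degree `2 M` and the zeros `t`, `(t, w) ∈ T`. -/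
def Zeros (q u v : Polynomial F) (T : Multiset (F × F)) : Prop :=
  IsCoprime u v ∧ (∀ s ∈ T, s.2 ^ 2 = q.eval s.1 ∧ u.eval s.1 + v.eval s.1 * s.2 = 0) ∧
    (∃ κ : F, κ ≠ 0 ∧ u ^ 2 - v ^ 2 * q =
      Polynomial.C κ * (T.map fun s => Polynomial.X - Polynomial.C s.1).prod) ∧
    ∃ M : ℕ, T.card = 2 * M ∧ u.natDegree ≤ M ∧ v.natDegree + 2 ≤ M

/-- The divisors of the functions `(u + v w) / (u - v w)` on the curves in the direction of a coordinate. -/
def Fibral (f : MvPolynomial (Fin 2) F) : Set (((Fin 2 → F) × F) →₀ ℤ) :=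
  {z | ∃ (x : Fin 2 → F) (i : Fin 2) (u v : Polynomial F) (T : Multiset (F × F)),
    Zeros (line f x i) u v T ∧ z = (T.map fun s => dl (shift x i s.1) s.2).sum}

/-- The differences of two points on a rational curve, the image of a line under `t ↦ (c(t), b(t))`. -/
def Curves (f : MvPolynomial (Fin 2) F) : Set (((Fin 2 → F) × F) →₀ ℤ) :=
  {z | ∃ (c : Fin 2 → Polynomial F) (b : Polynomial F), b ^ 2 = aeval c f ∧
    z = pt (fun k => (c k).eval 0) (b.eval 0) - pt (fun k => (c k).eval 1) (b.eval 1)}

/-- The differences of two fibres of the projection `(x, w) ↦ x`. -/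
def Fibres (f : MvPolynomial (Fin 2) F) : Set (((Fin 2 → F) × F) →₀ ℤ) :=
  {z | ∃ (x x' : Fin 2 → F) (w w' : F), w ^ 2 = eval x f ∧ w' ^ 2 = eval x' f ∧
    z = pt x w + pt x (-w) - pt x' w' - pt x' (-w')}

/-- A group of zero-cycles which are rationally equivalent to zero on the affine surface `w² = f(x)`. -/
noncomputable def Rat (f : MvPolynomial (Fin 2) F) : AddSubgroup (((Fin 2 → F) × F) →₀ ℤ) :=
  AddSubgroup.closure (Fibral f ∪ Curves f ∪ Fibres f)

/-- The zero-cycle of a point, given by a representative. -/
noncomputable def ptC (X : (Fin 2 × Fin 2 → F) × F) : ((Fin 2 × Fin 2 → F) × F) →₀ ℤ := Finsupp.single X 1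

/-- The zero-cycle `[X] - [ι X]`. -/
noncomputable def dlC (X : (Fin 2 × Fin 2 → F) × F) : ((Fin 2 × Fin 2 → F) × F) →₀ ℤ :=
  ptC X - ptC (X.1, -X.2)

/-- The cycles in the affine charts. -/
def Charts (G : MvPolynomial (Fin 2 × Fin 2) F) : Set (((Fin 2 × Fin 2 → F) × F) →₀ ℤ) :=
  {z | ∃ (ε : Fin 2 → Fin 2), ∃ z' ∈ Rat (chart G ε), z = z'.mapDomain (lift ε)}

/-- The differences of two representatives of the same point. -/
def Representatives (G : MvPolynomial (Fin 2 × Fin 2) F) : Set (((Fin 2 × Fin 2 → F) × F) →₀ ℤ) :=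
  {z | ∃ X ∈ cone G, ∃ d : Fin 2 → F, (∀ j, d j ≠ 0) ∧ z = ptC X - ptC (scale d X)}

/-- A group of zero-cycles which are rationally equivalent to zero on the double cover `W² = G(X)`. -/
noncomputable def RatC (G : MvPolynomial (Fin 2 × Fin 2) F) :
    AddSubgroup (((Fin 2 × Fin 2 → F) × F) →₀ ℤ) := AddSubgroup.closure (Charts G ∪ Representatives G)

/-- The set `A` of rational points contains with `X` all rational points `Y` such that `[Y] - [ι Y]` is an odd multiple
of `[X] - [ι X]`. -/
def Saturated (G : MvPolynomial (Fin 2 × Fin 2) F) (A : Set ((Fin 2 × Fin 2 → F) × F)) : Prop :=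
  A ⊆ cone G ∧ ∀ X ∈ A, ∀ Y ∈ cone G, (∃ k : ℤ, dlC Y - (2 * k + 1) • dlC X ∈ RatC G) → Y ∈ A

/-- The rational points `Y` such that `[Y] - [ι Y]` is an odd multiple of `[X] - [ι X]`. -/
def OddMultiples (G : MvPolynomial (Fin 2 × Fin 2) F) (X : (Fin 2 × Fin 2 → F) × F) :
    Set ((Fin 2 × Fin 2 → F) × F) := {Y | Y ∈ cone G ∧ ∃ k : ℤ, dlC Y - (2 * k + 1) • dlC X ∈ RatC G}

/-- The embedding in the algebraic closure. -/
noncomputable abbrev toC (F : Type) [Field F] : F →+* AlgebraicClosure F :=
  algebraMap F (AlgebraicClosure F)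

/-- The rational points `X` such that a positive multiple of `[X] - [ι X]` is rationally equivalent to zero over the
algebraic closure. -/
def Central (G : MvPolynomial (Fin 2 × Fin 2) F) : Set ((Fin 2 × Fin 2 → F) × F) :=
  {X | X ∈ cone G ∧ ∃ N : ℕ, N ≠ 0 ∧ N • dlC (image (toC F) X) ∈ RatC (map (toC F) G)}

/-- A positive multiple of the difference of the points is rationally equivalent to zero over the algebraic
closure. -/
def Equivalent (G : MvPolynomial (Fin 2 × Fin 2) F) (X Y : (Fin 2 × Fin 2 → F) × F) : Prop :=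
  ∃ N : ℕ, N ≠ 0 ∧ N • (ptC (image (toC F) X) - ptC (image (toC F) Y)) ∈ RatC (map (toC F) G)

/-- The line `z_j = c` is tangent to the curve `f = 0`. -/
def Tangent (f : MvPolynomial (Fin 2) F) (i j : Fin 2) (c : F) : Prop :=
  ∃ y : Fin 2 → AlgebraicClosure F, y j = algebraMap F (AlgebraicClosure F) c ∧ aeval y f = 0 ∧
    aeval y (pderiv i f) = 0

end cycles

section moves

variable {K : Type} [Field K]

/-- The Jacobian of the curve `w² = c + q₁ t + q₂ t² + q₃ t³ + q₄ t⁴` of genus one (the cubic resolvent), `q_k` the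
coefficients of `q`. -/
noncomputable def jacobian (q : Polynomial K) (c : K) : WeierstrassCurve K :=
  ⟨0, q.coeff 2, 0, q.coeff 1 * q.coeff 3 - 4 * c * q.coeff 4,
    q.coeff 1 ^ 2 * q.coeff 4 + c * q.coeff 3 ^ 2 - 4 * c * q.coeff 2 * q.coeff 4⟩

/-- The curve `w² = q(t)` is smooth of genus one. -/
def GenusOne (q : Polynomial K) : Prop := (jacobian q (q.coeff 0)).Δ ≠ 0

/-- The first coordinate, on the Jacobian, of the difference of the two points `(0, w)`, `(0, -w)` of the curve
`w² = q(t)`. -/
noncomputable def abscissa (q : Polynomial K) (w : K) : K := q.coeff 1 ^ 2 / (4 * w ^ 2) - q.coeff 2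

/-- The second coordinate. -/
noncomputable def ordinate (q : Polynomial K) (w : K) : K :=
  (q.coeff 1 * abscissa q w + 2 * w ^ 2 * q.coeff 3) / (2 * w)

/-- The difference of the two points `(0, w)`, `(0, -w)` of the curve `w² = q(t)` has infinite order in the
Jacobian. -/
def InfiniteOrder (q : Polynomial K) (w : K) : Prop :=
  letI : DecidableEq K := Classical.decEq K
  ∀ h : (jacobian q (w ^ 2)).toAffine.Nonsingular (abscissa q w) (ordinate q w),
    ∀ n : ℕ, n ≠ 0 → n • (.some (abscissa q w) (ordinate q w) h : (jacobian q (w ^ 2)).toAffine.Point) ≠ 0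

/-- The point `P = (z, w)` moves in the direction `i`: the curve through `P` on which only `z_i` varies is smooth of
genus one, and the difference of `(z, w)` and `(z, -w)` has infinite order in its Jacobian. -/
def Moves (g : MvPolynomial (Fin 2) K) (P : (Fin 2 → K) × K) (i : Fin 2) : Prop :=
  GenusOne (line g P.1 i) ∧ InfiniteOrder (line g P.1 i) P.2

/-- The rational points `P = (z, w)` in the chart `ε` of the surface `W² = G(X)`, `w ≠ 0`, with `z ∉ T ε`, which
move in the direction `j` if `z_j ∈ E ε j`. -/
def Good {Ω : Type} [Field Ω] (T : (Fin 2 → Fin 2) → Set (Fin 2 → Ω))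
    (E : (Fin 2 → Fin 2) → Fin 2 → Set Ω) (G : MvPolynomial (Fin 2 × Fin 2) K) (φ : K →+* Ω)
    (ε : Fin 2 → Fin 2) : Set ((Fin 2 → K) × K) :=
  {P | P.2 ≠ 0 ∧ P.2 ^ 2 = eval P.1 (chart G ε) ∧ (fun j => φ (P.1 j)) ∉ T ε ∧
    ∀ j, φ (P.1 j) ∈ E ε j → Moves (chart G ε) P j}

/-- The affine coordinates, in the chart `ε`, of the points of the set `A`. -/
def affinePart (A : Set ((Fin 2 × Fin 2 → K) × K)) (ε : Fin 2 → Fin 2) : Set ((Fin 2 → K) × K) :=
  {P | lift ε P ∈ A}

/-- The good points of the set `A`, in the chart `ε`. -/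
def GoodIn {Ω : Type} [Field Ω] (T : (Fin 2 → Fin 2) → Set (Fin 2 → Ω))
    (E : (Fin 2 → Fin 2) → Fin 2 → Set Ω) (G : MvPolynomial (Fin 2 × Fin 2) K) (φ : K →+* Ω)
    (A : Set ((Fin 2 × Fin 2 → K) × K)) (ε : Fin 2 → Fin 2) : Set ((Fin 2 → K) × K) :=
  Good T E G φ ε ∩ affinePart A ε

/-- All families of representatives, over `ℝ` and over the fields `M v`, of one rational point, which has in some
chart `ε` affine coordinates in the set `A ε`. -/
def points (A : (Fin 2 → Fin 2) → Set ((Fin 2 → K) × K)) {V : Type} {M : V → Type} [∀ v, Field (M v)]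
    (τ : K →+* ℝ) (σ : ∀ v, K →+* M v) :
    Set (((Fin 2 × Fin 2 → ℝ) × ℝ) × (∀ v, (Fin 2 × Fin 2 → M v) × M v)) :=
  {S | ∃ (ε : Fin 2 → Fin 2) (P : (Fin 2 → K) × K), P ∈ A ε ∧
    (∃ d : Fin 2 → ℝ, (∀ j, d j ≠ 0) ∧ S.1 = scale d (lift ε (image τ P))) ∧
    ∀ v, ∃ d : Fin 2 → M v, (∀ j, d j ≠ 0) ∧ S.2 v = scale d (lift ε (image (σ v) P))}

/-- The closure of the points of `A` in the product of the real surface and the surfaces over finitely many (or no)
locally compact ultrametric fields `M v` is a union of sets `C × {y}`, where `C` is a connected component of the real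
surface. -/
def WholeComponents (G : MvPolynomial (Fin 2 × Fin 2) K) (A : (Fin 2 → Fin 2) → Set ((Fin 2 → K) × K))
    (τ : K →+* ℝ) : Prop :=
  ∀ (V : Type) [Finite V] (M : V → Type) [∀ v, NontriviallyNormedField (M v)] [∀ v, ProperSpace (M v)]
    [∀ v, IsUltrametricDist (M v)] (σ : ∀ v, K →+* M v)
    (x : (Fin 2 × Fin 2 → ℝ) × ℝ) (y : ∀ v, (Fin 2 × Fin 2 → M v) × M v),
    (x, y) ∈ closure (points A τ σ) →
    ∀ x' ∈ connectedComponentIn (cone (map τ G)) x, (x', y) ∈ closure (points A τ σ)

/-- For all finite nonempty families of embeddings in fields `ℚ_[p v]`, for different primes `p v`, the closure of the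
points of `A` in the product of the real surface and the surfaces over these fields contains `C × U`, where `C` is the
connected component of `P` in the real surface and `U` is a neighbourhood of `P` in the product of the other
surfaces. -/
def ComponentTimesOpen (G : MvPolynomial (Fin 2 × Fin 2) K)
    (A : (Fin 2 → Fin 2) → Set ((Fin 2 → K) × K)) (τ : K →+* ℝ) (ε : Fin 2 → Fin 2)
    (P : (Fin 2 → K) × K) : Prop :=
  ∀ (ι : Type) [Finite ι] [Nonempty ι] (p : ι → ℕ) [∀ v, Fact (p v).Prime], Function.Injective p →
    ∀ σ : ∀ v, K →+* ℚ_[p v], ∃ U ∈ nhds (fun v => lift ε (image (σ v) P)),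
      ∀ x' ∈ connectedComponentIn (cone (map τ G)) (lift ε (image τ P)),
      ∀ y ∈ U, (∀ v, y v ∈ cone (map (σ v) G)) → (x', y) ∈ closure (points A τ σ)

/-- The closure of the good points of the set `A` has both properties. -/
def ClosureOfGood {Ω : Type} [Field Ω] (T : (Fin 2 → Fin 2) → Set (Fin 2 → Ω))
    (E : (Fin 2 → Fin 2) → Fin 2 → Set Ω) (G : MvPolynomial (Fin 2 × Fin 2) K) (φ : K →+* Ω)
    (A : Set ((Fin 2 × Fin 2 → K) × K)) (τ : K →+* ℝ) : Prop :=
  WholeComponents G (GoodIn T E G φ A) τ ∧
    ∀ ε, ∀ P ∈ GoodIn T E G φ A ε, ComponentTimesOpen G (GoodIn T E G φ A) τ ε P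

/-- The rational points of all surfaces `W² = e G(X)`, `e ∈ Kˣ`, over the line `z_j = c` are central, and all
but those with `z_i` in a finite set (which does not depend on `e`) are good. -/
def CentralAndGood {Ω : Type} [Field Ω] (T : (Fin 2 → Fin 2) → Set (Fin 2 → Ω))
    (E : (Fin 2 → Fin 2) → Fin 2 → Set Ω) (G : MvPolynomial (Fin 2 × Fin 2) K) (φ : K →+* Ω)
    (ε : Fin 2 → Fin 2) (i j : Fin 2) (c : K) : Prop :=
  ∃ S : Set K, S.Finite ∧ ∀ e : K, e ≠ 0 → ∀ P : (Fin 2 → K) × K,
    P.2 ^ 2 = eval P.1 (chart (C e * G) ε) → P.1 j = c →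
      lift ε P ∈ Central (C e * G) ∧ (P.1 i ∉ S → P ∈ Good T E (C e * G) φ ε)

/-- Over an extension `L` of degree at most two, to which `τ` extends, the central points are dense in the connected
component of `x` in the real surface; and there is a central `L`-point `P` of this component such that the closure of
the set of the central points contains the product of the component and a neighbourhood of `P` in the product of
the `p`-adic surfaces, as in `ComponentTimesOpen`. -/
def CentralPointsDense (G : MvPolynomial (Fin 2 × Fin 2) K) (τ : K →+* ℝ)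
    (x : (Fin 2 × Fin 2 → ℝ) × ℝ) : Prop :=
  ∃ (L : Type) (_ : Field L) (_ : NumberField L) (_ : Algebra K L) (τ' : L →+* ℝ) (ε : Fin 2 → Fin 2)
    (P : (Fin 2 → L) × L), Module.finrank K L ≤ 2 ∧ τ'.comp (algebraMap K L) = τ ∧
    lift ε P ∈ Central (ext L G) ∧
    lift ε (image τ' P) ∈ connectedComponentIn (cone (map τ G)) x ∧
    (∀ x' ∈ connectedComponentIn (cone (map τ G)) x,
      x' ∈ closure {Y | ∃ X ∈ Central (ext L G), ∃ d : Fin 2 → ℝ, (∀ j, d j ≠ 0) ∧
        Y = scale d (image τ' X)}) ∧
    ComponentTimesOpen (ext L G) (affinePart (Central (ext L G))) τ' ε P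

end moves

/-- **Theorem.** -/
theorem result (K : Type) [Field K] [NumberField K] (F : MvPolynomial (Fin 2 × Fin 2) K) (hF : IsForm F)
    (hS : Smooth F) :
    -- (1) central points are equivalent; saturated sets
    (∀ e : K, (∀ X ∈ Central (C e * F), ∀ Y ∈ Central (C e * F), Equivalent (C e * F) X Y) ∧
      Saturated (C e * F) (Central (C e * F)) ∧
      ∀ X ∈ cone (C e * F), X ∈ OddMultiples (C e * F) X ∧ Saturated (C e * F) (OddMultiples (C e * F) X)) ∧
    (∀ D : ℕ, ∃ (T : (Fin 2 → Fin 2) → Set (Fin 2 → AlgebraicClosure K))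
      (E : (Fin 2 → Fin 2) → Fin 2 → Set (AlgebraicClosure K)),
      (∀ ε, (T ε).Finite) ∧ (∀ ε j, (E ε j).Finite) ∧
      ∀ (L : Type) [Field L] [NumberField L] [Algebra K L], Module.finrank K L ≤ D →
      ∀ φ : L →ₐ[K] AlgebraicClosure K,
      -- (2) the closure of the good points of a saturated set
      (∀ e : L, e ≠ 0 → ∀ A, Saturated (C e * ext L F) A → ∀ τ : L →+* ℝ,
        ClosureOfGood T E (C e * ext L F) (φ : L →+* AlgebraicClosure K) A τ) ∧
      -- (3) tangent lines
      ∀ (ε : Fin 2 → Fin 2) (i j : Fin 2) (c : L), i ≠ j → Tangent (chart (ext L F) ε) i j c →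
        CentralAndGood T E (ext L F) (φ : L →+* AlgebraicClosure K) ε i j c) ∧
    -- (4) the components of the real points over the tangent lines
    ∀ e : K, e ≠ 0 → ∀ (ε : Fin 2 → Fin 2) (i j : Fin 2) (c : K), i ≠ j → Tangent (chart F ε) i j c →
      ∀ (τ : K →+* ℝ) (x : (Fin 2 → ℝ) × ℝ), lift ε x ∈ cone (map τ (C e * F)) → x.2 ≠ 0 → x.1 j = τ c →
        CentralPointsDense (C e * F) τ (lift ε x) := by
  have hF' : Pool.Agent.Q35.TT.Hom4 F := hF
  have hS' : Pool.Agent.Q35.TT.SmoothF F := hS
  have hFe : ∀ e : K, Pool.Agent.Q35.TT.Hom4 (C e * F) := by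
    intro e m hm j
    rw [mem_support_iff, coeff_C_mul] at hm
    exact hF m (mem_support_iff.2 (right_ne_zero_of_mul hm)) j
  refine ⟨fun e => ⟨fun X hX Y hY => Pool.Agent.H58RC.cen_pair (hFe e) hX hY,
    Pool.Agent.H58RC.sat_cen Pool.Agent.Q35.ZC.map2 (C e * F), fun X hX =>
    ⟨Pool.Agent.H58RC.self_oddC hX, Pool.Agent.H58RC.sat_oddC (C e * F) X⟩⟩, fun D => ?_, ?_⟩
  · have h := fun ε : Fin 2 → Fin 2 => Pool.Agent.H58RC.dat2 K (Pool.Agent.Q35.TT.ch F ε)
      (Pool.Agent.Q182.TT.CHF.chf K 2 F hF' ε).1 ((Pool.Agent.Q182.TT.CHF.chf K 2 F hF' ε).2.1 hS') D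
    choose T E h using h
    refine ⟨T, E, fun ε => (h ε).1.finT, fun ε => (h ε).1.finE, ?_⟩
    intro L _ _ _ hD φ
    have hfd : Module.Finite K L := Module.Finite.of_restrictScalars_finite ℚ K L
    have halg : Algebra.IsAlgebraic K L := Algebra.IsAlgebraic.of_finite K L
    have hex : ∀ ε, Pool.Agent.Q35.TT.ch (Pool.Agent.Q35.TB.ex L F) ε =
        Pool.Agent.Q35.TB.ex L (Pool.Agent.Q35.TT.ch F ε) := (Pool.Agent.Q35.TB.exf2 K L 2 F hF').2.2.1
    refine ⟨fun e he A hA τ => ?_, ?_⟩
    · refine ⟨?_, fun ε P hP => ?_⟩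
      · intro V _ M _ _ _ σ x y hxy x' hx'
        exact Pool.Agent.H58RC.part1R Pool.Agent.Q35.ZC.step2 Pool.Agent.H58RC.lems hF' hS' (fun ε => (h ε).1)
          hD he φ hex τ σ hA x x' y hxy hx'
      · intro ι _ _ p _ hp σ
        exact Pool.Agent.H58RC.part2R Pool.Agent.Q35.ZC.step2 Pool.Agent.H58RC.lems hF' hS' (fun ε => (h ε).1)
          (fun ε => (h ε).2) hD he φ hex τ hp σ hA hP
    · intro ε i j c hij ht
      have ht' : Pool.Agent.H58RC.Tang (Pool.Agent.Q35.TB.ex L (Pool.Agent.Q35.TT.ch F ε)) i j c := by
        rw [← hex]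
        exact ht
      obtain ⟨S, hSf, hSg⟩ := Pool.Agent.H58RC.tan_goodL (Pool.Agent.Q182.TT.CHF.chf K 2 F hF' ε).1
        ((Pool.Agent.Q182.TT.CHF.chf K 2 F hF' ε).2.1 hS') (h ε).1 L φ hij ht'
      refine ⟨S, hSf, fun e he P hP hc => ⟨?_, fun hi => ?_⟩⟩
      · have hg : Pool.Agent.Q35.TT.ch (C e * Pool.Agent.Q35.TB.ex L F) ε =
            C e * Pool.Agent.Q35.TB.ex L (Pool.Agent.Q35.TT.ch F ε) := by
          rw [Pool.Agent.H58RC.ch_mul, hex]
        refine Pool.Agent.H58RC.tan_cen (ε := ε) (i := i) (j := j) (c := c) ?_ hij ?_ hP hc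
        · intro k
          change (Pool.Agent.Q35.TT.ch (C e * Pool.Agent.Q35.TB.ex L F) ε).degreeOf k ≤ 4
          rw [hg]
          exact (degreeOf_C_mul_le _ k _).trans
            (Pool.Agent.Y720.MZ.degreeOf_map_le _ ((Pool.Agent.Q182.TT.CHF.chf K 2 F hF' ε).1 k))
        · change Pool.Agent.H58RC.Tang (Pool.Agent.Q35.TT.ch (C e * Pool.Agent.Q35.TB.ex L F) ε) i j c
          rw [hg]
          exact Pool.Agent.H58RC.tang_mul ht' e
      · have hg : Pool.Agent.Q35.TT.ch (C e * Pool.Agent.Q35.TB.ex L F) ε =
            C e * Pool.Agent.Q35.TB.ex L (Pool.Agent.Q35.TT.ch F ε) := by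
          rw [Pool.Agent.H58RC.ch_mul, hex]
        have hP' : P.2 ^ 2 = eval P.1 (C e * Pool.Agent.Q35.TB.ex L (Pool.Agent.Q35.TT.ch F ε)) := by
          rw [← hg]
          exact hP
        obtain ⟨h1, h2, h3⟩ := hSg e he P.1 P.2 hc hi hP'
        refine ⟨h1, hP, h2, fun k hk => ?_⟩
        change Pool.Agent.Results.MP_ed3816_nt.OpenAwayFromTorsion.Moves
          (Pool.Agent.Q35.TT.ch (C e * Pool.Agent.Q35.TB.ex L F) ε) P k
        rw [hg]
        exact h3 k hk
  · intro e he ε i j c hij ht τ x hx hx2 hxj
    obtain ⟨L, i1, i2, i3, τ', P, h1, h2, h3, h4, h5, h6⟩ :=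
      Pool.Agent.H58RC.dense_comp hF' hS' he ε hij ht τ hx hx2 hxj
    exact ⟨L, i1, i2, i3, τ', ε, P, h1, h2, h3, h4, h5, h6⟩

end Pool.Agent.Results.MP_9207e0_ag.CentralPointsRealComponents
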