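import Pool.Agent.H55.MX.Cyc2

/-!
# Zero-cycles on surfaces with involutions: the classes of the rational points are Zariski dense
(helper55; the dynamical part rests on work of helpers 32, 46, 52, 64, 72, 85, 95, see `MP_f9f755_nt.AutomorphismGroups`)

`X ⊂ ℙⁿ` is a surface over a number field `K` (irreducible, possibly singular), with an odd number of involutions `σ_i`, each
the covering involution of a double covering of a rational surface, and `f = σ_1 ⋯ σ_k`.  We assume that `f` is hyperbolic in
the following sense: there are a morphism `π : X → ℙᵐ` which is an isomorphism onto its image outside of a closed set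
`E` which is stable under the `σ_i`, and integers `a_i ≥ 0`, `i < r`, and `b_j ≥ 0`, `j < s`, `r ≠ s`, with
`⨂ (f^{a_i})^* π^* O(1) ≅ ⨂ (f^{b_j})^* π^* O(1)`.

Examples.
* The smooth surfaces `X` of degree `(2,2,2)` in `ℙ¹ × ℙ¹ × ℙ¹`, which are K3 surfaces, with the three projections to
  `ℙ¹ × ℙ¹`.  On the span of the three hyperplane classes `f^*` has the characteristic polynomial
  `(t + 1) (t² - 18 t + 1) = t³ - 17 t² - 17 t + 1`, so for `π` the Segre embedding, `E` empty, `r = 2`, `s = 34`,
  `a = (3, 0)`, `b = (2, …, 2, 1, …, 1)` the relation holds.  The involution which exchanges the two values of the first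
  coordinate is of the required form: for `F = A x₀² + B x₀ x₁ + C x₁²` with forms `A, B, C` in `y, z` the
  Chow form of the two points over `(y, z)` is `A β² - B α β + C α²` with `α = ∑ y_j z_k u_{0jk}`,
  `β = ∑ y_j z_k u_{1jk}`.
* More generally each K3 surface such that an odd product `f` of covering involutions of double planes or of double
  quadrics has positive entropy; `E` is the union of the curves periodic under `f` (as there: `(π, E)` exist by the
  theory of the intersection form).  The group need not preserve any fibration.

We prove: for all but finitely many points `p` of `X(K)` outside of `E` the points `q` of `X(K)` which are rationally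
equivalent to `p` on `X` over the algebraic closure are Zariski dense in `X`, and at all but finitely many places `v` of `K`
they are Zariski dense in each `v`-adic neighbourhood of `p`.  And the class of `p + f p` does not depend on `p`;
so all the points of odd period of `f` have the same class up to `2`-torsion.
(The conjecture of Bloch and Beilinson says for a K3 surface that all points are rationally equivalent up to
torsion.)

Idea of the proof.  The class of `p + σ_i p` is constant, as these cycles form a family over a rational variety.  So `f`
acts on classes as `c - [p]` and `f²` acts trivially.  The orbits of `f²` outside of `E` are finite in number if they are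
finite, and the intersections of an infinite orbit with the small discs at a place of good reduction are stable
under a power of `f`.  An infinite set of `K`-points outside of `E` which is stable under a power of `f` does not lie on a
curve: on an irreducible curve the ratio of the heights of `π(f^j x)` and `x` would have a limit `ρ(j)`, periodic in
`j`, with `∑ ρ(j + a_i) = ∑ ρ(j + b_j)`, and so `r = s`.
-/

set_option autoImplicit false

open MvPolynomial Pool.Agent.H55.MG Pool.Agent.H55.MX
open Pool.Agent.H55.MZ (Poly NoZero Homog)
open scoped LinearAlgebra.Projectivization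

namespace Pool.Agent.Results.MP_9207e0_ag.DenseEquivalenceClasses

variable {K : Type} [Field K] {n : ℕ}

/-- `σ` is an automorphism of the pair `(X, E)` (the permutation `σ` of `X(K)` and its inverse are given by forms on `X`)
and the pairs `p`, `σ p` are members of a family of zero-cycles of degree two parametrized by an affine space. -/
def IsDeckAut (I E : Ideal (Poly K n)) (σ : Equiv.Perm (RatPt I)) : Prop :=
  Regular I σ ∧ Regular I σ.symm ∧ (∀ p, On E (σ p) ↔ On E p) ∧ Deck I σ

/-- The orbit of the point `p` of `X(K)` under `f` is infinite. -/
def InfOrb {I : Ideal (Poly K n)} (f : Equiv.Perm (RatPt I)) (p : RatPt I) : Prop :=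
  ¬ (MulAction.orbit (Subgroup.zpowers f) p).Finite

/-- **Theorem.**  Let `X ⊂ ℙⁿ` be an irreducible projective variety of dimension at most two over a number field `K`, `E` a
closed subset, `σ_1, …, σ_k` with `k` odd automorphisms of `(X, E)` such that the pairs `p`, `σ_i p` belong to families
parametrized by affine spaces, `f = σ_1 ⋯ σ_k`, `π : X → ℙᵐ` a morphism with an inverse given by forms outside of `E`, and
`⨂ (f^{a_i})^* π^* O(1) ≅ ⨂ (f^{b_j})^* π^* O(1)`, `i < r`, `j < s`, `r ≠ s`.  Then

* the class of the zero-cycle `p + f p` on `X` over the algebraic closure modulo rational equivalence is the same for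
  all `p` in `X(K)`;
* only finitely many points of `X(K)` outside of `E` have a finite orbit under `f`;
* for each other point `p` of `X(K)` outside of `E` the points of `X(K)` which are rationally equivalent to `p` are Zariski
  dense in `X`;
* there is `M ≠ 0` such that for every nonarchimedean local field `L ⊃ K` in which `M` is a unit, for all these `p` and all
  `ε > 0` the points of `X(K)` which are rationally equivalent to `p` and nearer than `ε` to `p` over `L` are Zariski dense
  in `X`. -/
theorem result {K : Type} [Field K] [NumberField K] {n m : ℕ} (I E : Ideal (Poly K n)) (_ : Homog I)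
    (_ : IsSurface I) (π : RatPt I → ℙ K (Fin (m + 1) → K)) (_ : RegularTo I π) (_ : InvOut I E π)
    {k : ℕ} (_ : Odd k) (σs : Fin k → Equiv.Perm (RatPt I)) (_ : ∀ i, IsDeckAut I E (σs i))
    (f : Equiv.Perm (RatPt I)) (_ : f = (List.ofFn σs).prod)
    {r s : ℕ} (_ : r ≠ s) (a : Fin r → ℕ) (b : Fin s → ℕ)
    (_ : LinEquivTo I (fun i p => π ((f ^ a i) p)) (fun j p => π ((f ^ b j) p))) :
    (∀ p q : RatPt I, (Finsupp.single (emb p) 1 + Finsupp.single (emb (f p)) 1 -
      (Finsupp.single (emb q) 1 + Finsupp.single (emb (f q)) 1) :
        (Fin (n + 1) → AlgebraicClosure K) →₀ ℤ) ∈ RatC I) ∧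
    {p : RatPt I | ¬ On E p ∧ ¬ InfOrb f p}.Finite ∧
    (∀ p : RatPt I, ¬ On E p → InfOrb f p → ZDense I {q | REq q p}) ∧
    ∃ M : ℕ, M ≠ 0 ∧
      ∀ (L : Type) [NontriviallyNormedField L] [IsUltrametricDist L] [ProperSpace L] (σ : K →+* L), ‖(M : L)‖ = 1 →
        ∀ p : RatPt I, ¬ On E p → InfOrb f p → ∀ ε : ℝ, 0 < ε →
          ZDense I {q | REq q p ∧ Nr σ (vec q) (fun i => σ (vec p i)) ε} := by
  rename_i hI hs hπ hinv hk hσ hf hrs hrel
  obtain ⟨h1, h2, h3⟩ := cyc_main hI hs hπ hinv hk σs (fun i => ⟨(hσ i).1, (hσ i).2.1⟩) (fun i => (hσ i).2.2.1)
    (fun i => (hσ i).2.2.2) hf hrs a b hrel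
  refine ⟨fun p q => ?_, ?_, h2, h3⟩
  · have h := list_const (List.ofFn σs) (fun g hg => by
      obtain ⟨i, rfl⟩ := (List.mem_ofFn' _ _).1 hg
      exact (hσ i).2.2.2) p q
    rw [List.length_ofFn, hk.neg_one_pow, neg_smul, one_smul, ← hf] at h
    have h' : cls p + cls (f p) = cls q + cls (f q) := by
      have h0 : cls (f p) - cls (f q) + (cls p - cls q) = 0 := by rw [h]; abel
      have h00 : cls p + cls (f p) - (cls q + cls (f q)) = 0 := by rw [← h0]; abel
      exact sub_eq_zero.1 h00
    unfold cls at h'
    rw [← QuotientAddGroup.mk_add, ← QuotientAddGroup.mk_add, QuotientAddGroup.eq, ← neg_mem_iff] at h'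
    convert h' using 1
    abel
  · refine h1.subset ?_
    rintro p ⟨hp, hp'⟩
    exact ⟨hp, not_not.1 hp'⟩

end Pool.Agent.Results.MP_9207e0_ag.DenseEquivalenceClasses
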