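import Mathlib
import Pool.Agent.H68K.Fin

/-!
# K3 surfaces: on every fibre of a Kummer surface of a product of elliptic curves over `ℚ̄` the points in
the canonical class contain a group of infinite rank

Let `E₁ : y² = x³ + a₁ x + b₁` and `E₂ : z² = u³ + a₂ u + b₂` be any two elliptic curves over `ℚ̄`. The
surface

  `X : w² = (x³ + a₁ x + b₁) (u³ + a₂ u + b₂)`

is birational to the Kummer surface of `E₁ × E₂`, a K3 surface (`w = y z`). For every point `(t, s)` of
`E₁` the map `(u, z) ↦ (t, u, s z)` identifies `E₂` with the fibre `x = t` of `X` if `s ≠ 0`. The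
Bloch–Beilinson conjecture predicts that all points of `X` over `ℚ̄` are rationally equivalent, hence in the
class `c_X` of the points of the rational curves on `X`, for instance of the curves `x = α`, `w = 0`, where
`α³ + a₁ α + b₁ = 0`. We say that a point `p` is *canonical* if for the points `q` of these curves a
positive multiple of `[p] - [q]` is rationally equivalent to zero (by Roitman's theorem `p` and `q` are then
equivalent).

**Theorem.** For all elliptic curves `E₁`, `E₂` over `ℚ̄` and for every `(t, s) ∈ E₁(ℚ̄)` the points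
`(u, z) ∈ E₂(ℚ̄)` such that the point `(t, u, s z)` of the fibre is canonical are, together with `0`, a
subgroup `A` of `E₂(ℚ̄)`. The quotient `E₂(ℚ̄) / A` is torsion free, and `A` has infinite rank: it
contains an infinite sequence of linearly independent points.

So on every fibre of the projections of `X` infinitely many points, which generate a group of infinite rank,
are in one and the same class `c_X`.

Zero-cycles are formal sums of points of the affine surface. The cycles in `Rat` are rationally equivalent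
to zero on `X`: they are generated by the divisors of the functions `(w - l x - n) / (w + l x + n)` on the
curves `u` constant, of `(w - l u - n) / (w + l u + n)` on the curves `x` constant, by the differences of
two points on a rational curve, and by the differences of two fibres of `(x, u, w) ↦ (x, u)`.

Idea of the proof. There is a Möbius transformation which maps the roots of the first cubic to the roots
of the second one, but not `∞` to `∞`. Its graph lifts to a rational curve `C` on `X`. The points of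
`C` give relations `(x, y) ⊗ (u, z) = 0` in the Chow group. For a finitely generated group `Γ ⊆ E₂(ℚ̄)` the
field of definition of everything embeds in `ℚ_p` for a large prime `p`. By Weil's bound there is a residue
class in which `x³ + a₁ x + b₁` is a nonzero square and `u³ + a₂ u + b₂`, for the image `u` of `x` under the
Möbius transformation, is not. In this class we find two points `(x, y)` over `ℚ_p` with
`N (x, y) = N' (t, s)`, `N' ≠ 0`, by the logarithm of the formal group. The corresponding `(u, z)` are defined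
over an unramified quadratic extension, with `σ z = - z`, so that a relation with `Γ` would make them
torsion points, and two different points in the same class modulo `p` are not both torsion points.
-/

set_option autoImplicit false

namespace Pool.Agent.Results.MP_9207e0_ag.InfiniteRankFibres

open Polynomial

section defs

variable {k : Type} [Field k]

/-- The elliptic curve `y² = x³ + a x + b`. -/
def E (a b : k) : WeierstrassCurve k := ⟨0, 0, 0, a, b⟩

/-- The zero-cycle `[(x, u, w)]`, in the group of formal sums of points. -/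
noncomputable def pt (x u w : k) : (k × k × k) →₀ ℤ := Finsupp.single (x, u, w) 1

/-- The zero-cycle `[(x, u, w)] - [(x, u, -w)]`. -/
noncomputable def dl (x u w : k) : (k × k × k) →₀ ℤ := pt x u w - pt x u (-w)

/-- The divisors of the functions `(w - l x - n) / (w + l x + n)` on the curves `u` constant: the line
`w = l x + n` meets the curve in the points with `x = x₁, x₂, x₃`. -/
def Hor (a₁ b₁ a₂ b₂ : k) : Set ((k × k × k) →₀ ℤ) :=
  {z | ∃ u l n x₁ x₂ x₃ : k,
    (C l * X + C n) ^ 2 - C (u ^ 3 + a₂ * u + b₂) * (X ^ 3 + C a₁ * X + C b₁) =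
      -C (u ^ 3 + a₂ * u + b₂) * ((X - C x₁) * (X - C x₂) * (X - C x₃)) ∧
    z = dl x₁ u (l * x₁ + n) + dl x₂ u (l * x₂ + n) + dl x₃ u (l * x₃ + n)}

/-- The divisors of the functions `(w - l u - n) / (w + l u + n)` on the curves `x` constant: the line
`w = l u + n` meets the curve in the points with `u = u₁, u₂, u₃`. -/
def Ver (a₁ b₁ a₂ b₂ : k) : Set ((k × k × k) →₀ ℤ) :=
  {z | ∃ x l n u₁ u₂ u₃ : k,
    (C l * X + C n) ^ 2 - C (x ^ 3 + a₁ * x + b₁) * (X ^ 3 + C a₂ * X + C b₂) =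
      -C (x ^ 3 + a₁ * x + b₁) * ((X - C u₁) * (X - C u₂) * (X - C u₃)) ∧
    z = dl x u₁ (l * u₁ + n) + dl x u₂ (l * u₂ + n) + dl x u₃ (l * u₃ + n)}

/-- The differences of two points on a rational curve `t ↦ (A / D, B / D, W / D³)` on the surface. -/
def Rcu (a₁ b₁ a₂ b₂ : k) : Set ((k × k × k) →₀ ℤ) :=
  {z | ∃ (A B W D : k[X]) (s t : k),
    W ^ 2 = (A ^ 3 + C a₁ * A * D ^ 2 + C b₁ * D ^ 3) * (B ^ 3 + C a₂ * B * D ^ 2 + C b₂ * D ^ 3) ∧
    D.eval s ≠ 0 ∧ D.eval t ≠ 0 ∧
    z = pt (A.eval s / D.eval s) (B.eval s / D.eval s) (W.eval s / D.eval s ^ 3) -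
      pt (A.eval t / D.eval t) (B.eval t / D.eval t) (W.eval t / D.eval t ^ 3)}

/-- The differences of two fibres of the projection `(x, u, w) ↦ (x, u)`. -/
def Fib (a₁ b₁ a₂ b₂ : k) : Set ((k × k × k) →₀ ℤ) :=
  {z | ∃ x u w x' u' w' : k, w ^ 2 = (x ^ 3 + a₁ * x + b₁) * (u ^ 3 + a₂ * u + b₂) ∧
    w' ^ 2 = (x' ^ 3 + a₁ * x' + b₁) * (u' ^ 3 + a₂ * u' + b₂) ∧
    z = pt x u w + pt x u (-w) - pt x' u' w' - pt x' u' (-w')}

/-- A group of zero-cycles which are rationally equivalent to zero on the surface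
`w² = (x³ + a₁ x + b₁) (u³ + a₂ u + b₂)`. -/
noncomputable def Rat (a₁ b₁ a₂ b₂ : k) : AddSubgroup ((k × k × k) →₀ ℤ) :=
  AddSubgroup.closure (Hor a₁ b₁ a₂ b₂ ∪ Ver a₁ b₁ a₂ b₂ ∪ Rcu a₁ b₁ a₂ b₂ ∪ Fib a₁ b₁ a₂ b₂)

/-- The point `(x, u, w)` is canonical: for every point `(α, v, 0)` of the rational curves `x = α`, `w = 0`,
where `α³ + a₁ α + b₁ = 0`, a positive multiple of `[(x, u, w)] - [(α, v, 0)]` is rationally equivalent to
zero. -/
def Canonical (a₁ b₁ a₂ b₂ x u w : k) : Prop :=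
  ∀ α v : k, α ^ 3 + a₁ * α + b₁ = 0 → ∃ N : ℕ, N ≠ 0 ∧ N • (pt x u w - pt α v 0) ∈ Rat a₁ b₁ a₂ b₂

end defs

lemma exists_seq {G : Type} [AddCommGroup G] (A : Set G)
    (h : ∀ F : Finset G, ∃ Q ∈ A, ∀ N : ℕ, N ≠ 0 → N • Q ∉ AddSubgroup.closure (F : Set G)) :
    ∃ v : ℕ → G, LinearIndependent ℤ v ∧ ∀ n, v n ∈ A := by
  classical
  choose f hfA hf using h
  obtain ⟨F, hF⟩ : ∃ F : ℕ → Finset G, ∀ n, F (n + 1) = insert (f (F n)) (F n) :=
    ⟨fun n => Nat.rec ∅ (fun _ Fn => insert (f Fn) Fn) n, fun n => rfl⟩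
  have hmono : ∀ n, F n ⊆ F (n + 1) := fun n => by
    rw [hF]
    exact Finset.subset_insert _ _
  have hmono' : ∀ m n, m ≤ n → F m ⊆ F n := by
    intro m n hmn
    induction n, hmn using Nat.le_induction with
    | base => exact Finset.Subset.refl _
    | succ n _ ih => exact ih.trans (hmono n)
  have hmem : ∀ i n, i < n → f (F i) ∈ F n := by
    intro i n hi
    apply hmono' (i + 1) n hi
    rw [hF]
    exact Finset.mem_insert_self _ _
  refine ⟨fun n => f (F n), ?_, fun n => hfA _⟩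
  rw [linearIndependent_iff']
  intro s g hg
  by_contra hcon
  push Not at hcon
  obtain ⟨i, hi, hgi⟩ := hcon
  set T := s.filter (fun j => g j ≠ 0) with hT
  have hTne : T.Nonempty := ⟨i, Finset.mem_filter.mpr ⟨hi, hgi⟩⟩
  set m := T.max' hTne with hm
  have hmT : m ∈ T := T.max'_mem hTne
  obtain ⟨hms, hgm⟩ := Finset.mem_filter.mp hmT
  have h1 : g m • f (F m) = -∑ j ∈ s.erase m, g j • f (F j) := by
    rw [← Finset.add_sum_erase s _ hms] at hg
    exact eq_neg_of_add_eq_zero_left hg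
  have h2 : g m • f (F m) ∈ AddSubgroup.closure (F m : Set G) := by
    rw [h1]
    apply neg_mem
    apply sum_mem
    intro j hj
    obtain ⟨hjm, hjs⟩ := Finset.mem_erase.mp hj
    by_cases hgj : g j = 0
    · rw [hgj, zero_smul]; exact zero_mem _
    · have hjT : j ∈ T := Finset.mem_filter.mpr ⟨hjs, hgj⟩
      have hle : j ≤ m := T.le_max' j hjT
      exact zsmul_mem (AddSubgroup.subset_closure (hmem j m (lt_of_le_of_ne hle hjm))) _
  apply hf (F m) (g m).natAbs (Int.natAbs_ne_zero.mpr hgm)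
  rcases Int.natAbs_eq (g m) with h3 | h3
  · rw [← natCast_zsmul, ← h3]; exact h2
  · rw [← natCast_zsmul]
    have h4 : (((g m).natAbs : ℕ) : ℤ) = -g m := by omega
    rw [h4, neg_smul]; exact neg_mem h2

section canonical

variable {k : Type} [Field k] {a₁ b₁ a₂ b₂ : k}

lemma canonical_iff [IsAlgClosed k] {x u w : k}
    (hw : w ^ 2 = (x ^ 3 + a₁ * x + b₁) * (u ^ 3 + a₂ * u + b₂)) :
    Canonical a₁ b₁ a₂ b₂ x u w ↔ ∃ N : ℕ, N ≠ 0 ∧ N • dl x u w ∈ Rat a₁ b₁ a₂ b₂ := by
  have hfib : ∀ α v : k, α ^ 3 + a₁ * α + b₁ = 0 →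
      pt x u w + pt x u (-w) - pt α v 0 - pt α v (-0) ∈ Rat a₁ b₁ a₂ b₂ := by
    intro α v hα
    apply AddSubgroup.subset_closure
    right
    exact ⟨x, u, w, α, v, 0, hw, by rw [hα]; ring, rfl⟩
  constructor
  · intro h
    obtain ⟨α, hα⟩ := IsAlgClosed.exists_root (X ^ 3 + C a₁ * X + C b₁ : k[X]) (by
      rw [show (X ^ 3 + C a₁ * X + C b₁ : k[X]).degree = 3 by compute_degree!]
      norm_num)
    simp only [Polynomial.IsRoot.def, Polynomial.eval_add, Polynomial.eval_mul, Polynomial.eval_pow,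
      Polynomial.eval_X, Polynomial.eval_C] at hα
    obtain ⟨N, hN, hN'⟩ := h α 0 hα
    refine ⟨N, hN, ?_⟩
    have h1 := hfib α 0 hα
    rw [neg_zero] at h1
    have h2 : N • dl x u w = 2 • (N • (pt x u w - pt α 0 0)) -
        N • (pt x u w + pt x u (-w) - pt α 0 0 - pt α 0 0) := by
      unfold dl
      rw [smul_smul, mul_comm 2 N, ← smul_smul, ← nsmul_sub]
      congr 1
      rw [two_smul]
      abel
    rw [h2]
    exact sub_mem (nsmul_mem hN' 2) (nsmul_mem h1 N)
  · rintro ⟨N, hN, hN'⟩ α v hα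
    refine ⟨N * 2, mul_ne_zero hN two_ne_zero, ?_⟩
    have h1 := hfib α v hα
    rw [neg_zero] at h1
    have h2 : (N * 2) • (pt x u w - pt α v 0) = N • dl x u w +
        N • (pt x u w + pt x u (-w) - pt α v 0 - pt α v 0) := by
      unfold dl
      rw [← smul_smul, ← nsmul_add]
      congr 1
      rw [two_smul]
      abel
    rw [h2]
    exact add_mem hN' (nsmul_mem h1 N)

end canonical

theorem alg_qb : Algebra.IsAlgebraic ℚ (AlgebraicClosure ℚ) := by
  have h := AlgebraicClosure.isAlgebraic ℚ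
  have e : (AlgebraicClosure.instAlgebra ℚ : Algebra ℚ (AlgebraicClosure ℚ)) =
    DivisionRing.toRatAlgebra := Subsingleton.elim _ _
  rw [e] at h
  exact h

theorem emb_qb : Nonempty (AlgebraicClosure ℚ →+* ℂ) := by
  have := alg_qb
  exact ⟨(IsAlgClosed.lift (R := ℚ) (M := ℂ) (S := AlgebraicClosure ℚ)).toRingHom⟩

open scoped Classical in
/-- the theorem, for the curve `sw` -/
theorem result_sw (a₁ b₁ a₂ b₂ : AlgebraicClosure ℚ) (h₁ : 4 * a₁ ^ 3 + 27 * b₁ ^ 2 ≠ 0)
    (h₂ : 4 * a₂ ^ 3 + 27 * b₂ ^ 2 ≠ 0) (t s : AlgebraicClosure ℚ)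
    (hts : s ^ 2 = t ^ 3 + a₁ * t + b₁) :
    ∃ A : AddSubgroup (TH942.sw a₂ b₂).toAffine.Point,
      (∀ (u z : AlgebraicClosure ℚ) (h : (TH942.sw a₂ b₂).toAffine.Nonsingular u z),
        WeierstrassCurve.Affine.Point.some u z h ∈ A ↔ Canonical a₁ b₁ a₂ b₂ t u (s * z)) ∧
      (∀ (N : ℕ) (Q : (TH942.sw a₂ b₂).toAffine.Point), N ≠ 0 → N • Q ∈ A → Q ∈ A) ∧
      ∃ v : ℕ → (TH942.sw a₂ b₂).toAffine.Point, LinearIndependent ℤ v ∧ ∀ n, v n ∈ A := by
  let φ := H68K.hv a₁ b₁ a₂ b₂ two_ne_zero hts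
  let A : AddSubgroup (TH942.sw a₂ b₂).toAffine.Point := (AddCommGroup.torsion _).comap φ
  have hA : ∀ Q, Q ∈ A ↔ ∃ N : ℕ, 0 < N ∧ N • φ Q = 0 := by
    intro Q
    change IsOfFinAddOrder (φ Q) ↔ _
    exact isOfFinAddOrder_iff_nsmul_eq_zero
  have hmem : ∀ (u z : AlgebraicClosure ℚ) (h : (TH942.sw a₂ b₂).toAffine.Nonsingular u z),
      WeierstrassCurve.Affine.Point.some u z h ∈ A ↔
        ∃ N : ℕ, N ≠ 0 ∧ N • dl t u (s * z) ∈ Rat a₁ b₁ a₂ b₂ := by
    intro u z h
    rw [hA]
    have hφ : ∀ N : ℕ, N • φ (WeierstrassCurve.Affine.Point.some u z h) = 0 ↔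
        N • dl t u (s * z) ∈ Rat a₁ b₁ a₂ b₂ := by
      intro N
      change N • (QuotientAddGroup.mk (H68K.dl t u (s * z)) : H68K.Cyc _ ⧸ H68K.Rat a₁ b₁ a₂ b₂) = 0 ↔ _
      rw [← QuotientAddGroup.mk_nsmul, QuotientAddGroup.eq_zero_iff]
      exact Iff.rfl
    constructor
    · rintro ⟨N, hN, hN'⟩
      exact ⟨N, hN.ne', (hφ N).mp hN'⟩
    · rintro ⟨N, hN, hN'⟩
      exact ⟨N, Nat.pos_of_ne_zero hN, (hφ N).mpr hN'⟩
  refine ⟨A, ?_, ?_, ?_⟩
  · intro u z h
    have hz : z ^ 2 = u ^ 3 + a₂ * u + b₂ := (H68K.short_sw a₂ b₂).eqn h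
    rw [hmem, canonical_iff (by rw [mul_pow, hts, hz])]
  · intro N Q hN hQ
    rw [hA] at hQ ⊢
    obtain ⟨M, hM, hM'⟩ := hQ
    refine ⟨M * N, Nat.mul_pos hM (Nat.pos_of_ne_zero hN), ?_⟩
    rw [← smul_smul, ← map_nsmul]
    exact hM'
  · apply exists_seq (A : Set (TH942.sw a₂ b₂).toAffine.Point)
    intro F
    obtain ⟨i⟩ := emb_qb
    have := alg_qb
    obtain ⟨u, z, n, ⟨M, hM, hM'⟩, hout⟩ := H68K.exists_outside i h₁ h₂ hts F
    exact ⟨WeierstrassCurve.Affine.Point.some u z n, (hmem u z n).mpr ⟨M, hM, hM'⟩, hout⟩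

open scoped Classical in
/-- **On every fibre of the Kummer surface of `E₁ × E₂` over `ℚ̄` the points in the canonical class
form a group of infinite rank.** -/
theorem result (a₁ b₁ a₂ b₂ : AlgebraicClosure ℚ) (h₁ : 4 * a₁ ^ 3 + 27 * b₁ ^ 2 ≠ 0)
    (h₂ : 4 * a₂ ^ 3 + 27 * b₂ ^ 2 ≠ 0) (t s : AlgebraicClosure ℚ)
    (hts : s ^ 2 = t ^ 3 + a₁ * t + b₁) :
    ∃ A : AddSubgroup (E a₂ b₂).toAffine.Point,
      -- the points of `A` are the points over the canonical points of the fibre `x = t`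
      (∀ (u z : AlgebraicClosure ℚ) (h : (E a₂ b₂).toAffine.Nonsingular u z),
        WeierstrassCurve.Affine.Point.some u z h ∈ A ↔ Canonical a₁ b₁ a₂ b₂ t u (s * z)) ∧
      -- the quotient is torsion free
      (∀ (N : ℕ) (Q : (E a₂ b₂).toAffine.Point), N ≠ 0 → N • Q ∈ A → Q ∈ A) ∧
      -- `A` contains infinitely many linearly independent points
      ∃ v : ℕ → (E a₂ b₂).toAffine.Point, LinearIndependent ℤ v ∧ ∀ n, v n ∈ A :=
  result_sw a₁ b₁ a₂ b₂ h₁ h₂ t s hts

end Pool.Agent.Results.MP_9207e0_ag.InfiniteRankFibres
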